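import Mathlib

/-!
# A uniformly convex space and a four point metric space embedding almost isometrically but not
isometrically
-/

open scoped NNReal ENNReal Topology
open Filter

namespace Pool.Agent.Results.MP_6d826c_an.FourCycle

/-- Uniform convexity. -/
def UniformlyConvex (X : Type) [NormedAddCommGroup X] [NormedSpace ℝ X] : Prop :=
  ∀ ε : ℝ, 0 < ε → ε ≤ 2 → ∃ δ : ℝ, 0 < δ ∧ ∀ x y : X, ‖x‖ ≤ 1 → ‖y‖ ≤ 1 → ε ≤ ‖x - y‖ →
    ‖(1 / 2 : ℝ) • (x + y)‖ ≤ 1 - δ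

/-- `M` embeds isometrically into `X`. -/
def EmbedsIsometrically (M X : Type) [MetricSpace M] [NormedAddCommGroup X] : Prop :=
  ∃ f : M → X, ∀ a b, ‖f a - f b‖ = dist a b

/-- `M` embeds almost isometrically into `X`. -/
def EmbedsAlmostIsometrically (M X : Type) [MetricSpace M] [NormedAddCommGroup X] : Prop :=
  ∀ ε : ℝ, 0 < ε → ∃ f : M → X, ∀ a b,
    dist a b ≤ ‖f a - f b‖ ∧ ‖f a - f b‖ ≤ (1 + ε) * dist a b

/-! ### The planes -/

/-- The plane with the norm `√(a² + b² + 2κ|ab|)`. -/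
def E (_ : Set.Icc (0:ℝ) (1/2)) : Type := ℝ × ℝ

variable (κ : Set.Icc (0:ℝ) (1/2))

instance : AddCommGroup (E κ) := inferInstanceAs (AddCommGroup (ℝ × ℝ))
instance : Module ℝ (E κ) := inferInstanceAs (Module ℝ (ℝ × ℝ))
instance : FiniteDimensional ℝ (E κ) := inferInstanceAs (FiniteDimensional ℝ (ℝ × ℝ))

/-- The embedding into a sum of a Euclidean plane and an `ℓ_1` plane. -/
noncomputable def T : E κ →ₗ[ℝ] WithLp 2 (WithLp 2 (ℝ × ℝ) × WithLp 1 (ℝ × ℝ)) where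
  toFun x := WithLp.toLp 2 (WithLp.toLp 2 (√(1 - κ) * x.1, √(1 - κ) * x.2),
    WithLp.toLp 1 (√κ * x.1, √κ * x.2))
  map_add' x y := by
    apply (WithLp.equiv _ _).injective
    refine Prod.ext ?_ ?_
    · apply (WithLp.equiv _ _).injective
      refine Prod.ext ?_ ?_
      · exact mul_add _ _ _
      · exact mul_add _ _ _
    · apply (WithLp.equiv _ _).injective
      refine Prod.ext ?_ ?_
      · exact mul_add _ _ _
      · exact mul_add _ _ _
  map_smul' c x := by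
    apply (WithLp.equiv _ _).injective
    refine Prod.ext ?_ ?_
    · apply (WithLp.equiv _ _).injective
      refine Prod.ext ?_ ?_
      · exact mul_left_comm _ _ _
      · exact mul_left_comm _ _ _
    · apply (WithLp.equiv _ _).injective
      refine Prod.ext ?_ ?_
      · exact mul_left_comm _ _ _
      · exact mul_left_comm _ _ _

theorem T_injective : Function.Injective (T κ) := by
  intro x y h
  have h1 : 0 < √(1 - (κ:ℝ)) := Real.sqrt_pos.mpr (by have := κ.2.2; linarith)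
  have h2 : √(1 - (κ:ℝ)) * x.1 = √(1 - (κ:ℝ)) * y.1 :=
    congrArg (fun z => z.fst.fst) h
  have h3 : √(1 - (κ:ℝ)) * x.2 = √(1 - (κ:ℝ)) * y.2 :=
    congrArg (fun z => z.fst.snd) h
  exact Prod.ext (mul_left_cancel₀ h1.ne' h2) (mul_left_cancel₀ h1.ne' h3)

noncomputable instance : NormedAddCommGroup (E κ) :=
  NormedAddCommGroup.induced (E κ) _ (T κ) (T_injective κ)

noncomputable instance : NormedSpace ℝ (E κ) := NormedSpace.induced ℝ (E κ) _ (T κ)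

instance : CompleteSpace (E κ) := FiniteDimensional.complete ℝ (E κ)

theorem norm_sq (x : E κ) : ‖x‖ ^ 2 = x.1 ^ 2 + x.2 ^ 2 + 2 * κ * |x.1| * |x.2| := by
  have h0 : ‖x‖ = ‖T κ x‖ := rfl
  rw [h0, WithLp.prod_norm_sq_eq_of_L2, WithLp.prod_norm_sq_eq_of_L2, WithLp.prod_norm_eq_of_L1]
  have h1 : (T κ x).fst.fst = √(1 - κ) * x.1 := rfl
  have h2 : (T κ x).fst.snd = √(1 - κ) * x.2 := rfl
  have h3 : (T κ x).snd.fst = √κ * x.1 := rfl
  have h4 : (T κ x).snd.snd = √κ * x.2 := rfl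
  rw [h1, h2, h3, h4]
  simp only [Real.norm_eq_abs, abs_mul, abs_of_nonneg (Real.sqrt_nonneg _)]
  have h5 : √(1 - (κ:ℝ)) ^ 2 = 1 - κ := Real.sq_sqrt (by have := κ.2.2; linarith)
  have h6 : √(κ:ℝ) ^ 2 = κ := Real.sq_sqrt κ.2.1
  have h7 := sq_abs x.1
  have h8 := sq_abs x.2
  calc (√(1 - (κ:ℝ)) * |x.1|) ^ 2 + (√(1 - (κ:ℝ)) * |x.2|) ^ 2 +
        (√(κ:ℝ) * |x.1| + √(κ:ℝ) * |x.2|) ^ 2
      = √(1 - (κ:ℝ)) ^ 2 * (|x.1| ^ 2 + |x.2| ^ 2) + √(κ:ℝ) ^ 2 * (|x.1| + |x.2|) ^ 2 := by ring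
    _ = x.1 ^ 2 + x.2 ^ 2 + 2 * κ * |x.1| * |x.2| := by
        rw [h5, h6, ← h7, ← h8]; ring

variable {κ}

theorem fst_sub (x y : E κ) : (x - y).1 = x.1 - y.1 := rfl
theorem snd_sub (x y : E κ) : (x - y).2 = x.2 - y.2 := rfl
theorem fst_add (x y : E κ) : (x + y).1 = x.1 + y.1 := rfl
theorem snd_add (x y : E κ) : (x + y).2 = x.2 + y.2 := rfl

theorem two_mul_abs_le (a b : ℝ) : 2 * |a| * |b| ≤ a ^ 2 + b ^ 2 := by
  have := sq_nonneg (|a| - |b|)
  nlinarith [sq_abs a, sq_abs b]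

theorem le_norm_sq (x : E κ) : x.1 ^ 2 + x.2 ^ 2 ≤ ‖x‖ ^ 2 := by
  rw [norm_sq]
  have h := κ.2.1
  have : 0 ≤ 2 * (κ:ℝ) * |x.1| * |x.2| := by positivity
  linarith

theorem norm_sq_le (x : E κ) : ‖x‖ ^ 2 ≤ (1 + κ) * (x.1 ^ 2 + x.2 ^ 2) := by
  rw [norm_sq]
  have h := κ.2.1
  have h2 := mul_le_mul_of_nonneg_left (two_mul_abs_le x.1 x.2) h
  nlinarith

/-- The parallelogram type inequality. -/
theorem parallel (x y : E κ) : ‖x + y‖ ^ 2 + 1 / 3 * ‖x - y‖ ^ 2 ≤ 2 * ‖x‖ ^ 2 + 2 * ‖y‖ ^ 2 := by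
  have h0 := κ.2.1
  have h1 := κ.2.2
  have h2 : ‖x - y‖ ^ 2 ≤ 3 * (1 - κ) * ((x.1 - y.1) ^ 2 + (x.2 - y.2) ^ 2) := by
    refine (norm_sq_le (x - y)).trans ?_
    rw [fst_sub, snd_sub]
    refine mul_le_mul_of_nonneg_right ?_ (by positivity)
    linarith
  have key : ∀ z : E κ, ‖z‖ ^ 2 = (1 - κ) * (z.1 ^ 2 + z.2 ^ 2) + κ * (|z.1| + |z.2|) ^ 2 := by
    intro z
    rw [norm_sq]
    nlinarith [sq_abs z.1, sq_abs z.2]
  have h3 : (|(x + y).1| + |(x + y).2|) ^ 2 ≤ 2 * (|x.1| + |x.2|) ^ 2 + 2 * (|y.1| + |y.2|) ^ 2 := by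
    rw [fst_add, snd_add]
    have e1 := abs_add_le x.1 y.1
    have e2 := abs_add_le x.2 y.2
    have e3 : 0 ≤ |x.1 + y.1| + |x.2 + y.2| := by positivity
    have e4 : |x.1 + y.1| + |x.2 + y.2| ≤ (|x.1| + |x.2|) + (|y.1| + |y.2|) := by linarith
    calc (|x.1 + y.1| + |x.2 + y.2|) ^ 2 ≤ ((|x.1| + |x.2|) + (|y.1| + |y.2|)) ^ 2 :=
          pow_le_pow_left₀ e3 e4 2
      _ ≤ _ := by nlinarith [sq_nonneg ((|x.1| + |x.2|) - (|y.1| + |y.2|))]
  have h4 := mul_le_mul_of_nonneg_left h3 h0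
  rw [key (x + y), key x, key y, fst_add, snd_add] at *
  nlinarith

/-- The quadrilateral inequality. -/
theorem quad (p q r s : E κ) : ‖p - r‖ ^ 2 + ‖q - s‖ ^ 2 ≤
    (1 + κ) * (‖p - q‖ ^ 2 + ‖q - r‖ ^ 2 + ‖r - s‖ ^ 2 + ‖s - p‖ ^ 2) := by
  have h0 := κ.2.1
  have h1 := norm_sq_le (p - r)
  have h2 := norm_sq_le (q - s)
  have h3 := le_norm_sq (p - q)
  have h4 := le_norm_sq (q - r)
  have h5 := le_norm_sq (r - s)
  have h6 := le_norm_sq (s - p)
  simp only [fst_sub, snd_sub] at *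
  have h7 : (p.1 - r.1) ^ 2 + (p.2 - r.2) ^ 2 + ((q.1 - s.1) ^ 2 + (q.2 - s.2) ^ 2) ≤
      (p.1 - q.1) ^ 2 + (p.2 - q.2) ^ 2 + ((q.1 - r.1) ^ 2 + (q.2 - r.2) ^ 2) +
      ((r.1 - s.1) ^ 2 + (r.2 - s.2) ^ 2) + ((s.1 - p.1) ^ 2 + (s.2 - p.2) ^ 2) := by
    nlinarith [sq_nonneg (p.1 - q.1 + r.1 - s.1), sq_nonneg (p.2 - q.2 + r.2 - s.2)]
  calc ‖p - r‖ ^ 2 + ‖q - s‖ ^ 2 ≤ (1 + κ) * ((p.1 - r.1) ^ 2 + (p.2 - r.2) ^ 2 +
        ((q.1 - s.1) ^ 2 + (q.2 - s.2) ^ 2)) := by linarith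
    _ ≤ _ := mul_le_mul_of_nonneg_left (by linarith) (by linarith)

/-! ### The sum -/

/-- The parameters. -/
noncomputable def kap (n : ℕ) : Set.Icc (0:ℝ) (1/2) :=
  ⟨1/2 - 1/2 * (1 / ((n:ℝ) + 1)), by
    have h1 : 0 < 1 / ((n:ℝ) + 1) := by positivity
    have h2 : 1 / ((n:ℝ) + 1) ≤ 1 := by
      rw [div_le_one (by positivity)]
      have : (0:ℝ) ≤ n := Nat.cast_nonneg n
      linarith
    constructor <;> linarith⟩

theorem kap_val (n : ℕ) : (kap n : ℝ) = 1/2 - 1/2 * (1 / ((n:ℝ) + 1)) := rfl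

theorem kap_lt (n : ℕ) : (kap n : ℝ) < 1/2 := by
  rw [kap_val]
  have h1 : 0 < 1 / ((n:ℝ) + 1) := by positivity
  linarith

/-- The space. -/
abbrev X : Type := lp (fun n => E (kap n)) 2

theorem hasSum_sq (x : X) : HasSum (fun n => ‖x n‖ ^ 2) (‖x‖ ^ 2) := by
  have h := lp.hasSum_norm (E := fun n => E (kap n)) (p := 2) (by norm_num) x
  simpa using h

theorem uniformlyConvex_X : UniformlyConvex X := by
  intro ε hε hε2
  refine ⟨ε ^ 2 / 24, by positivity, fun x y hx hy hxy => ?_⟩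
  have h1 : ‖x + y‖ ^ 2 + 1 / 3 * ‖x - y‖ ^ 2 ≤ 2 * ‖x‖ ^ 2 + 2 * ‖y‖ ^ 2 := by
    have s1 := (hasSum_sq (x + y)).add ((hasSum_sq (x - y)).mul_left (1/3))
    have s2 := ((hasSum_sq x).mul_left 2).add ((hasSum_sq y).mul_left 2)
    refine hasSum_le (fun n => ?_) s1 s2
    exact parallel (x n) (y n)
  have h2 : ‖x + y‖ ^ 2 ≤ 4 - ε ^ 2 / 3 := by
    have e1 : ‖x‖ ^ 2 ≤ 1 := pow_le_one₀ (norm_nonneg _) hx
    have e2 : ‖y‖ ^ 2 ≤ 1 := pow_le_one₀ (norm_nonneg _) hy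
    have e3 : ε ^ 2 ≤ ‖x - y‖ ^ 2 := pow_le_pow_left₀ hε.le hxy 2
    linarith
  rw [norm_smul, Real.norm_eq_abs, abs_of_pos (by norm_num : (0:ℝ) < 1/2)]
  have h3 : 0 ≤ 1 - ε ^ 2 / 24 := by nlinarith
  have h4 : (1 / 2 * ‖x + y‖) ^ 2 ≤ (1 - ε ^ 2 / 24) ^ 2 := by nlinarith [sq_nonneg (ε ^ 2)]
  exact (sq_le_sq₀ (by positivity) h3).mp h4

/-- The point with coordinates `a`, `b`. -/
def mk (κ : Set.Icc (0:ℝ) (1/2)) (a b : ℝ) : E κ := ((a, b) : ℝ × ℝ)

theorem infinite_dim : ¬ FiniteDimensional ℝ X := by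
  intro h
  let v : ℕ → X := fun n => lp.single 2 n (mk (kap n) 1 0)
  have hli : LinearIndependent ℝ v := by
    rw [linearIndependent_iff']
    intro s g hg i hi
    have h1 : ((∑ j ∈ s, g j • v j : X) : ∀ n, E (kap n)) i = 0 := by rw [hg]; rfl
    rw [lp.coeFn_sum, Finset.sum_apply, Finset.sum_eq_single i] at h1
    · have h2 : ((g i • v i : X) : ∀ n, E (kap n)) i = g i • mk (kap i) 1 0 := by
        rw [lp.coeFn_smul, Pi.smul_apply]
        simp only [v, lp.single_apply_self]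
      rw [h2] at h1
      have h3 : g i * 1 = 0 := congrArg Prod.fst h1
      simpa using h3
    · intro j _ hj
      rw [lp.coeFn_smul, Pi.smul_apply]
      simp only [v]
      rw [lp.single_apply_ne _ _ _ (Ne.symm hj), smul_zero]
    · intro h; exact absurd hi h
  have := hli.finite
  exact not_finite ℕ

/-- The four points. -/
def pt (κ : Set.Icc (0:ℝ) (1/2)) (c : ℝ) (i : Bool × Bool) : E κ :=
  mk κ (if i.1 then c else 0) (if i.2 then c else 0)

theorem pt_sub_fst (κ : Set.Icc (0:ℝ) (1/2)) (c : ℝ) (i j : Bool × Bool) :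
    (pt κ c i - pt κ c j).1 = (if i.1 then c else 0) - (if j.1 then c else 0) := rfl

theorem pt_sub_snd (κ : Set.Icc (0:ℝ) (1/2)) (c : ℝ) (i j : Bool × Bool) :
    (pt κ c i - pt κ c j).2 = (if i.2 then c else 0) - (if j.2 then c else 0) := rfl

/-- The parameter `1/2`. -/
noncomputable def half : Set.Icc (0:ℝ) (1/2) := ⟨1/2, by norm_num, le_refl _⟩

theorem half_val : ((half : Set.Icc (0:ℝ) (1/2)) : ℝ) = 1/2 := rfl

theorem pt_injective : Function.Injective (pt half 1) := by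
  rintro ⟨a, b⟩ ⟨c, d⟩ h
  have h1 : (if a then (1:ℝ) else 0) = if c then 1 else 0 := congrArg Prod.fst h
  have h2 : (if b then (1:ℝ) else 0) = if d then 1 else 0 := congrArg Prod.snd h
  cases a <;> cases b <;> cases c <;> cases d <;> simp_all

/-- The four point metric space: a four-cycle of side one with diagonals `√3`. -/
@[reducible] noncomputable def metricM : MetricSpace (Bool × Bool) :=
  MetricSpace.induced (pt half 1) pt_injective inferInstance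

theorem not_embeds : ¬ @EmbedsIsometrically (Bool × Bool) X metricM _ := by
  rintro ⟨f, hf⟩
  have hd : ∀ a b, ‖f a - f b‖ ^ 2 = ‖pt half 1 a - pt half 1 b‖ ^ 2 := by
    intro a b
    rw [hf a b, ← dist_eq_norm]
    rfl
  set p := f (false, false)
  set q := f (true, false)
  set r := f (true, true)
  set s := f (false, true)
  have e1 : ‖p - q‖ ^ 2 = 1 := by rw [hd, norm_sq, pt_sub_fst, pt_sub_snd, half_val]; simp
  have e2 : ‖q - r‖ ^ 2 = 1 := by rw [hd, norm_sq, pt_sub_fst, pt_sub_snd, half_val]; simp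
  have e3 : ‖r - s‖ ^ 2 = 1 := by rw [hd, norm_sq, pt_sub_fst, pt_sub_snd, half_val]; simp
  have e4 : ‖s - p‖ ^ 2 = 1 := by rw [hd, norm_sq, pt_sub_fst, pt_sub_snd, half_val]; simp
  have e5 : ‖p - r‖ ^ 2 = 3 := by
    rw [hd, norm_sq, pt_sub_fst, pt_sub_snd, half_val]; simp; norm_num
  have e6 : ‖q - s‖ ^ 2 = 3 := by
    rw [hd, norm_sq, pt_sub_fst, pt_sub_snd, half_val]; simp; norm_num
  have s1 := (hasSum_sq (p - r)).add (hasSum_sq (q - s))
  have s2 := ((((hasSum_sq (p - q)).add (hasSum_sq (q - r))).add (hasSum_sq (r - s))).add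
    (hasSum_sq (s - p))).mul_left (3/2)
  rw [e5, e6] at s1
  rw [e1, e2, e3, e4] at s2
  -- some coordinate of `p - q` is nonzero
  obtain ⟨n, hn⟩ : ∃ n, ‖(p - q) n‖ ^ 2 ≠ 0 := by
    by_contra hcon
    push Not at hcon
    have h1 := (hasSum_sq (p - q)).tsum_eq
    rw [e1] at h1
    simp only [hcon, tsum_zero] at h1
    exact zero_ne_one h1
  have hle : ∀ n, ‖(p - r) n‖ ^ 2 + ‖(q - s) n‖ ^ 2 ≤
      (1 + kap n) * (‖(p - q) n‖ ^ 2 + ‖(q - r) n‖ ^ 2 + ‖(r - s) n‖ ^ 2 + ‖(s - p) n‖ ^ 2) :=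
    fun n => quad (p n) (q n) (r n) (s n)
  have hlt : (3:ℝ) + 3 < 3/2 * (1 + 1 + 1 + 1) := by
    refine hasSum_lt (i := n) (fun k => ?_) ?_ s1 s2
    · refine (hle k).trans (mul_le_mul_of_nonneg_right ?_ (by positivity))
      have := kap_lt k
      linarith
    · refine lt_of_le_of_lt (hle n) (mul_lt_mul_of_pos_right ?_ ?_)
      · have := kap_lt n
        linarith
      · have : 0 < ‖(p - q) n‖ ^ 2 := lt_of_le_of_ne (by positivity) (Ne.symm hn)
        positivity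
  norm_num at hlt

theorem scaled (κ : Set.Icc (0:ℝ) (1/2)) (c : ℝ) (hc : 0 < c) (hc2 : c ^ 2 * (2 + 2 * κ) = 3)
    (i j : Bool × Bool) :
    ‖pt half 1 i - pt half 1 j‖ ≤ ‖pt κ c i - pt κ c j‖ ∧
      ‖pt κ c i - pt κ c j‖ ≤ c * ‖pt half 1 i - pt half 1 j‖ := by
  have h0 := κ.2.1
  have h1 := κ.2.2
  have hc1 : 1 ≤ c ^ 2 := by nlinarith
  have hx : (pt κ c i - pt κ c j).1 = c * (pt half 1 i - pt half 1 j).1 := by
    rw [pt_sub_fst, pt_sub_fst]
    split_ifs <;> ring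
  have hy : (pt κ c i - pt κ c j).2 = c * (pt half 1 i - pt half 1 j).2 := by
    rw [pt_sub_snd, pt_sub_snd]
    split_ifs <;> ring
  have hh : ((half : Set.Icc (0:ℝ) (1/2)) : ℝ) = 1/2 := rfl
  have n1 := norm_sq κ (pt κ c i - pt κ c j)
  have n2 := norm_sq half (pt half 1 i - pt half 1 j)
  rw [hx, hy, abs_mul, abs_mul, abs_of_pos hc] at n1
  rw [hh] at n2
  set a := (pt half 1 i - pt half 1 j).1
  set b := (pt half 1 i - pt half 1 j).2
  have h2 := two_mul_abs_le a b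
  have h3 : 0 ≤ |a| * |b| := by positivity
  constructor
  · refine (sq_le_sq₀ (norm_nonneg _) (norm_nonneg _)).mp ?_
    rw [n1, n2]
    have h4 : 0 ≤ (c ^ 2 - 1) * (a ^ 2 + b ^ 2 - 2 * |a| * |b|) :=
      mul_nonneg (by linarith) (by linarith)
    nlinarith
  · refine (sq_le_sq₀ (norm_nonneg _) (by positivity)).mp ?_
    rw [mul_pow, n1, n2]
    have h4 : 0 ≤ c ^ 2 * ((1 - 2 * κ) * (|a| * |b|)) :=
      mul_nonneg (by positivity) (mul_nonneg (by linarith) h3)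
    nlinarith

theorem embeds_almost : @EmbedsAlmostIsometrically (Bool × Bool) X metricM _ := by
  intro ε hε
  -- the scaling constants
  let c : ℕ → ℝ := fun n => √(3 / (2 + 2 * (kap n : ℝ)))
  have hk : Tendsto (fun n => (kap n : ℝ)) atTop (𝓝 (1/2)) := by
    have h1 : Tendsto (fun n : ℕ => 1/2 - 1/2 * (1 / ((n:ℝ) + 1))) atTop (𝓝 (1/2 - 1/2 * 0)) :=
      tendsto_const_nhds.sub (tendsto_one_div_add_atTop_nhds_zero_nat.const_mul _)
    rw [mul_zero, sub_zero] at h1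
    exact h1
  have hc : Tendsto c atTop (𝓝 (√(3 / (2 + 2 * (1/2))))) := by
    refine (Real.continuous_sqrt.tendsto _).comp ?_
    refine tendsto_const_nhds.div (tendsto_const_nhds.add (hk.const_mul 2)) (by norm_num)
  have h31 : √(3 / (2 + 2 * (1/2)) : ℝ) = 1 := by norm_num
  rw [h31] at hc
  obtain ⟨n, hn⟩ := (hc.eventually (gt_mem_nhds (show (1:ℝ) < 1 + ε by linarith))).exists
  have hkn := (kap n).2.1
  have hcpos : 0 < c n := Real.sqrt_pos.mpr (by positivity)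
  have hc2 : c n ^ 2 * (2 + 2 * (kap n : ℝ)) = 3 := by
    have : c n ^ 2 = 3 / (2 + 2 * (kap n : ℝ)) := Real.sq_sqrt (by positivity)
    rw [this]; field_simp
  refine ⟨fun i => lp.single 2 n (pt (kap n) (c n) i), fun i j => ?_⟩
  have h1 : ‖(lp.single 2 n (pt (kap n) (c n) i) : X) - lp.single 2 n (pt (kap n) (c n) j)‖ =
      ‖pt (kap n) (c n) i - pt (kap n) (c n) j‖ := by
    rw [← lp.single_sub, lp.norm_single (by norm_num)]
  have h2 : @dist _ metricM.toDist i j = ‖pt half 1 i - pt half 1 j‖ := by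
    rw [← dist_eq_norm]; rfl
  obtain ⟨h3, h4⟩ := scaled (kap n) (c n) hcpos hc2 i j
  rw [h1, h2]
  exact ⟨h3, h4.trans (mul_le_mul_of_nonneg_right hn.le (norm_nonneg _))⟩

/-- There are an infinite-dimensional uniformly convex Banach space `X` and a finite metric space
`M` which embeds almost isometrically but not isometrically into `X`. -/
theorem result : ∃ (X : Type) (_ : NormedAddCommGroup X) (_ : NormedSpace ℝ X)
    (_ : CompleteSpace X) (M : Type) (_ : Finite M) (_ : MetricSpace M),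
    ¬ FiniteDimensional ℝ X ∧ UniformlyConvex X ∧ EmbedsAlmostIsometrically M X ∧
      ¬ EmbedsIsometrically M X :=
  ⟨X, inferInstance, inferInstance, inferInstance, Bool × Bool, inferInstance, metricM,
    infinite_dim, uniformlyConvex_X, embeds_almost, not_embeds⟩

end Pool.Agent.Results.MP_6d826c_an.FourCycle
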